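import Pool.Agent.Q138.PS.XL
import Pool.Agent.Q138.AI.Rcbe134

/-!
# The Broadhurst-Kreimer conjecture and the values of multiple polylogarithms at `1/t` and `1 - 1/t`, `t` close to `c n^j α^n`

`Li_s(x) = ∑_{n_1 > … > n_k ≥ 1} x^{n_1} / (n_1^{s_1} ⋯ n_k^{s_k})` (weight `|s| = s_1 + ⋯ + s_k`, depth `k`), `Fil_r Z_N` is the
`ℚ`-span of the multiple zeta values of weight `N` and depth at most `r`, and `Fil_r V_N(t)` the `ℚ`-span of the products
`Li_s(1 - 1/t) Li_u(1/t)` with `|s| + |u| = N` and `(|s| - dep s) + dep u ≤ r`.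

For almost every real number `α > 1` the following holds. The properties `A` of integers named below are RARE along the powers of
`α`: there is `κ > 0` such that for all algebraic numbers `c > 0`, all integers `j`, all real `D` and all large `n`, NO integer
`t ≥ 2` with `|t - c n^j α^n| ≤ D (c n^j α^n)^κ` has the property `A`.

* For each `N` it is rare that for some `M ≤ N` and `r` one of the numbers `dim Fil_r V_M(t)`, `dim gr_r V_M(t)` is not the
  sum `∑_{k, j} binom(k, j) dim Fil_{r-j} Z_{M-k}`, resp. `∑_{k, j} binom(k, j) dim gr_{r-j} Z_{M-k}`.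
* Let `B = (1 + E Y) / (1 - O Y + S Y² - S Y⁴)`. The conjecture holds in all weights `≤ N` if and only if it is rare that the
  numbers `dim gr_r V_M(t)`, `M ≤ N`, are not the coefficients of `B / (1 - X - X Y)`; if the dimensions `dim Fil_r Z_k`, `k ≤ N`,
  are at most those predicted, if and only if it is rare that the numbers `dim Fil_r V_N(t)` are not the predicted ones.
* The conjecture holds (in all weights) if and only if the first of these properties is rare for infinitely many `N`.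
-/

set_option autoImplicit false

namespace Pool.Agent.Results.MP_cbe134_nt.DepthNearPowers

open Filter Module MeasureTheory Pool.Agent.Q138.PS Pool.Agent.Q138.AI.Rcbe134

/-- the generating series: `B / (1 - X - X Y)` has the coefficients `∑ binom(k, j) b(M - k, r - j)` -/
theorem coefficient (M r : ℕ) : cf B' M r = Pool.Agent.Q189.MV.cvz (cf B) M r := by
  have hinv : inv (1 - PowerSeries.X - PowerSeries.X * Y) = Pool.Agent.Q189.MV.Gs := by
    have h1 : (1 - PowerSeries.X - PowerSeries.X * Y) * inv (1 - PowerSeries.X - PowerSeries.X * Y) = 1 := by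
      unfold inv
      refine PowerSeries.mul_invOfUnit _ 1 ?_
      simp
    have h2 : (1 - PowerSeries.X - PowerSeries.X * Y) * Pool.Agent.Q189.MV.Gs = 1 := Pool.Agent.Q189.MV.Gs_mul
    calc inv (1 - PowerSeries.X - PowerSeries.X * Y) = inv (1 - PowerSeries.X - PowerSeries.X * Y) *
          ((1 - PowerSeries.X - PowerSeries.X * Y) * Pool.Agent.Q189.MV.Gs) := by rw [h2, mul_one]
      _ = (1 - PowerSeries.X - PowerSeries.X * Y) * inv (1 - PowerSeries.X - PowerSeries.X * Y) * Pool.Agent.Q189.MV.Gs := by ring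
      _ = Pool.Agent.Q189.MV.Gs := by rw [h1, one_mul]
  unfold B'
  rw [hinv]
  exact Pool.Agent.Q189.MV.cf_mul_Gs B M r

/-- **Theorem.** -/
theorem result :
    ∀ᵐ α : ℝ, 1 < α →
      (∀ N : ℕ, RarePow α 2 fun n => ¬ ∀ M ≤ N, ∀ r,
        finrank ℚ (V n M r) =
          ∑ k ∈ Finset.range (M + 1), ∑ j ∈ Finset.range (r + 1), k.choose j * finrank ℚ (Fil (M - k) (r - j)) ∧
        gr (V n M) r =
          ∑ k ∈ Finset.range (M + 1), ∑ j ∈ Finset.range (r + 1), k.choose j * gr (Fil (M - k)) (r - j)) ∧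
      (∀ N : ℕ, HoldsUpTo N ↔ RarePow α 2 fun n => ¬ HoldsAt N n) ∧
      (∀ N : ℕ, (∀ k ≤ N, ∀ r, ((finrank ℚ (Fil k r) : ℕ) : ℤ) ≤ cum B k r) →
        (HoldsUpTo N ↔ RarePow α 2 fun n => ¬ ∀ r, ((finrank ℚ (V n N r) : ℕ) : ℤ) = cum B' N r)) ∧
      ((∀ k r : ℕ, ((gr (Fil k) r : ℕ) : ℤ) = cf B k r) ↔
        ∀ N₀ : ℕ, ∃ N ≥ N₀, RarePow α 2 fun n => ¬ HoldsAt N n) := by
  obtain ⟨hup, hfew, hcrit, hmax, hone, -⟩ := Pool.Agent.Q138.AI.Rcbe134.result
  have hae := rarePow_ae (ι := ℕ ⊕ ℕ) (Sum.elim (fun N n => ¬ ∀ M ≤ N, ∀ r,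
        finrank ℚ (V n M r) =
          ∑ k ∈ Finset.range (M + 1), ∑ j ∈ Finset.range (r + 1), k.choose j * finrank ℚ (Fil (M - k) (r - j)) ∧
        gr (V n M) r =
          ∑ k ∈ Finset.range (M + 1), ∑ j ∈ Finset.range (r + 1), k.choose j * gr (Fil (M - k)) (r - j))
        (fun N n => ¬ HoldsAt N n))
  filter_upwards [hae] with α hg hα
  have h1 := hg hα
  have hA := fun N => h1 (Sum.inl N) 2 (hfew N)
  have hB : ∀ N : ℕ, HoldsUpTo N ↔ RarePow α 2 fun n => ¬ HoldsAt N n := by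
    intro N
    constructor
    · intro h
      exact h1 (Sum.inr N) 2 ((hcrit N).1 h)
    · intro h
      obtain ⟨n, hn, hn'⟩ := ((hA N).or h hα).exists_not hα
      rw [not_or] at hn'
      have h3 := not_not.1 hn'.1
      have h4 := not_not.1 hn'.2
      have h5 : ∀ M ≤ N, ∀ r, Pool.Agent.Q189.MV.cvz (fun k j => ((gr (Fil k) j : ℕ) : ℤ)) M r =
          Pool.Agent.Q189.MV.cvz (cf B) M r := by
        intro M hM r
        rw [← coefficient, ← h4 M hM r, (h3 M hM r).2]
        unfold Pool.Agent.Q189.MV.cvz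
        push_cast
        rfl
      exact fun k hk r => Pool.Agent.Q189.MV.cvz_inj h5 k hk r
  refine ⟨hA, hB, fun N hN => ⟨fun h => ?_, fun h => ?_⟩, fun h N₀ => ⟨N₀, le_rfl, (hB N₀).1 fun k _ r => h k r⟩,
    fun h k r => ?_⟩
  · refine (hA N).mono le_rfl fun t ht htn hall => htn fun r => ?_
    obtain ⟨⟨n', hn', e1⟩, e2⟩ := (hmax N).1 h N le_rfl r
    refine le_antisymm (e2 ⟨t, ht, rfl⟩) ?_
    rw [e1]
    have e3 := (hup n' N r hn').2
    rw [← (hall N le_rfl r).1] at e3
    exact_mod_cast e3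
  · obtain ⟨n, hn, hn'⟩ := h.exists_not hα
    exact (hone N hN).2 ⟨n, hn, not_not.1 hn'⟩
  · obtain ⟨N, hN, h3⟩ := h k
    exact (hB N).2 h3 k hN r

end Pool.Agent.Results.MP_cbe134_nt.DepthNearPowers
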