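import Pool.Agent.Q187.ZD.BK

/-!
# The Broadhurst-Kreimer conjecture: infinitely many weights and the motivic form

`Holds B Fil k` is the conjecture of Broadhurst and Kreimer for the real multiple zeta values of
weight `k`, in all depths, `Holds B Film k` the same for the depth filtration of the motivic ones.
The conjecture for one weight `N` gives the dimension of the space of multiple zeta values of
weight `N`, and the equality of the dimensions of the real and motivic depth filtrations in all
weights `k ≤ N`, `k ≠ N - 1`. The conjecture holds in all weights if and only if the motivic form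
holds in all weights and the real form in infinitely many weights.
-/

set_option autoImplicit false

open Module

namespace Pool.Agent.Results.MP_cbe134_nt.InfinitelyManyWeights

open Pool.Agent.H447R2.MZ (Zs)
open Pool.Agent.Q187.ZD
open Pool.Agent.Q187.ZD.BK

theorem result (s : ℕ → ℤ) (B : R) (h : IsBK s B) (d : ℕ → ℕ) (hd : IsZagier d)
    {H : Type} [CommRing H] [Algebra ℚ H] (gr : ℕ → Submodule ℚ H) (per : H →ₐ[ℚ] ℝ)
    (hm : IsMotivic d Zs gr per) (Film : ℕ → ℕ → Submodule ℚ H) (hf : ∀ r k, Film r k ≤ gr k)
    (hp : ∀ r k, (Film r k).map per.toLinearMap = Fil r k) :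
    (∀ N, Holds B Fil N → finrank ℚ (Zs N) = d N ∧
      ∀ k ≤ N, N - k ≠ 1 → ∀ r, jump (fun r => Fil r k) r = jump (fun r => Film r k) r) ∧
    ((∀ k, Holds B Fil k) ↔ (∀ k, Holds B Film k) ∧ {N | Holds B Fil N}.Infinite) ∧
    ((∀ k, Holds B Fil k) ↔ (∀ k, Holds B Film k) ∧
      ∀ ε : ℝ, 0 < ε → ∀ N₀, ∃ N ≥ N₀, (1 - ε) * d N ≤ finrank ℚ (Zs N)) :=
  ⟨fun _ hN => one_weight hm hf hp h hd hN, main hm hf hp h hd, main' hm hf hp h hd⟩

end Pool.Agent.Results.MP_cbe134_nt.InfinitelyManyWeights
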